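import Mathlib

/-!
Cayley graphs, quasi-lines, and two criteria: three diverging rays are impossible in a quasi-line,
and the Cayley graph of an infinite virtually cyclic group is a quasi-line.
-/

namespace Q33.GP

/-- The Cayley graph of `G` with respect to the set `S`. -/
def cayley {G : Type*} [Group G] (S : Set G) : SimpleGraph G where
  Adj x y := x ≠ y ∧ (x⁻¹ * y ∈ S ∨ y⁻¹ * x ∈ S)
  symm := ⟨fun _ _ h => ⟨h.1.symm, h.2.symm⟩⟩
  loopless := ⟨fun _ h => h.1 rfl⟩

/-- A graph is a quasi-line if it is connected and its vertex set with the path metric is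
quasi-isometric to the real line. -/
def IsQuasiLine {X : Type*} (E : SimpleGraph X) : Prop :=
  E.Connected ∧ ∃ (f : X → ℝ) (K C : ℝ), 1 ≤ K ∧ 0 ≤ C ∧
    (∀ x y, K⁻¹ * (E.dist x y : ℝ) - C ≤ |f x - f y| ∧
      |f x - f y| ≤ K * (E.dist x y : ℝ) + C) ∧
    ∀ r : ℝ, ∃ x, |f x - r| ≤ C

/-- A group is virtually cyclic if some cyclic subgroup has finite index. -/
def IsVirtuallyCyclic (G : Type*) [Group G] : Prop :=
  ∃ c : G, (Subgroup.zpowers c).index ≠ 0

section Cay

variable {G : Type*} [Group G] {S : Set G}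

theorem cay_dist_le_one (x : G) {s : G} (hs : s ∈ S) : (cayley S).dist x (x * s) ≤ 1 := by
  by_cases h : x = x * s
  · rw [← h]; simp
  · have hadj : (cayley S).Adj x (x * s) := ⟨h, Or.inl (by simpa using hs)⟩
    rw [SimpleGraph.dist_eq_one_iff_adj.mpr hadj]

theorem cay_reach (x : G) {s : G} (hs : s ∈ S) : (cayley S).Reachable x (x * s) := by
  by_cases h : x = x * s
  · rw [← h]
  · exact SimpleGraph.Adj.reachable ⟨h, Or.inl (by simpa using hs)⟩

theorem cay_reach' (x : G) {s : G} (hs : s⁻¹ ∈ S) : (cayley S).Reachable x (x * s) := by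
  have := cay_reach (x * s) hs
  rw [mul_inv_cancel_right] at this
  exact this.symm

theorem cay_connected (hS : Subgroup.closure S = ⊤) : (cayley S).Connected := by
  have h1 : ∀ g : G, (cayley S).Reachable 1 g := by
    intro g
    have hg : g ∈ Subgroup.closure S := by rw [hS]; trivial
    refine Subgroup.closure_induction_right
      (p := fun x _ => (cayley S).Reachable 1 x) SimpleGraph.Reachable.rfl ?_ ?_ hg
    · intro x y _ hy hx
      exact hx.trans (cay_reach x hy)
    · intro x y _ hy hx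
      exact hx.trans (cay_reach' x (by rwa [inv_inv]))
  have : Nonempty G := ⟨1⟩
  exact ⟨fun x y => (h1 x).symm.trans (h1 y)⟩

theorem cay_adj_mul (g : G) {x y : G} (h : (cayley S).Adj x y) : (cayley S).Adj (g * x) (g * y) := by
  refine ⟨fun e => h.1 (mul_left_cancel e), ?_⟩
  have e1 : (g * x)⁻¹ * (g * y) = x⁻¹ * y := by group
  have e2 : (g * y)⁻¹ * (g * x) = y⁻¹ * x := by group
  rw [e1, e2]
  exact h.2

theorem cay_dist_mul (hc : (cayley S).Connected) (g x y : G) :
    (cayley S).dist (g * x) (g * y) = (cayley S).dist x y := by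
  have key : ∀ (g x y : G), (cayley S).dist (g * x) (g * y) ≤ (cayley S).dist x y := by
    intro g x y
    obtain ⟨p, hp⟩ := hc.exists_walk_length_eq_dist x y
    let φ : cayley S →g cayley S := ⟨fun z => g * z, fun h => cay_adj_mul g h⟩
    rw [← hp, ← SimpleGraph.Walk.length_map φ p]
    exact SimpleGraph.dist_le _
  apply le_antisymm (key g x y)
  have := key g⁻¹ (g * x) (g * y)
  rwa [inv_mul_cancel_left, inv_mul_cancel_left] at this

end Cay

/-- A bounded graph is not a quasi-line. -/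
theorem not_quasiLine_of_bounded {X : Type*} {E : SimpleGraph X} (x0 : X) (M : ℕ)
    (h : ∀ x, E.dist x0 x ≤ M) : ¬ IsQuasiLine E := by
  rintro ⟨_, f, K, C, hK, hC, hq, hs⟩
  obtain ⟨x, hx⟩ := hs (f x0 + K * M + C + C + 1)
  have h1 := (hq x0 x).2
  have h2 : (E.dist x0 x : ℝ) ≤ M := by exact_mod_cast h x
  have h3 : K * (E.dist x0 x : ℝ) ≤ K * M := mul_le_mul_of_nonneg_left h2 (by linarith)
  rw [abs_le] at hx h1
  linarith [h1.1, h1.2, hx.1, hx.2]

/-- A discrete intermediate value property. -/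
theorem discrete_ivt (h : ℕ → ℝ) (J r : ℝ) (hJ : ∀ m, |h (m + 1) - h m| ≤ J) (h0 : h 0 ≤ r)
    (hJ0 : 0 ≤ J) (hm : ∃ m, r ≤ h m) : ∃ m, |h m - r| ≤ J := by
  classical
  have hsp := Nat.find_spec hm
  rcases Nat.eq_zero_or_pos (Nat.find hm) with hz | hp
  · rw [hz] at hsp
    refine ⟨0, ?_⟩
    rw [le_antisymm h0 hsp, sub_self, abs_zero]
    exact hJ0
  · obtain ⟨k, hk⟩ := Nat.exists_eq_succ_of_ne_zero hp.ne'
    have h1 : ¬ r ≤ h k := Nat.find_min hm (by omega)
    have h2 := hJ k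
    rw [hk] at hsp
    refine ⟨k + 1, ?_⟩
    push Not at h1
    have h3 : r ≤ h (k + 1) := hsp
    rw [abs_le] at h2 ⊢
    constructor <;> linarith [h2.1, h2.2]

/-- Two rays in a quasi-line going to the same end do not diverge. -/
theorem two_rays {X : Type*} {E : SimpleGraph X} (f : X → ℝ) (K C : ℝ) (hK : 1 ≤ K) (hC : 0 ≤ C)
    (hq : ∀ x y, K⁻¹ * (E.dist x y : ℝ) - C ≤ |f x - f y| ∧
      |f x - f y| ≤ K * (E.dist x y : ℝ) + C)
    (r s : ℕ → X) (hs0 : f (s 0) = f (r 0)) (hs : ∀ n, E.dist (s n) (s (n + 1)) ≤ 1)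
    (hr' : ∀ R : ℝ, ∃ n0, ∀ n ≥ n0, R ≤ f (r n)) (hs' : ∀ R : ℝ, ∃ n, R ≤ f (s n))
    (hdiv : ∀ D : ℕ, ∃ n0, ∀ n ≥ n0, ∀ m, D < E.dist (r n) (s m)) : False := by
  set J := K + C with hJ
  have hK0 : 0 < K := by linarith
  obtain ⟨D, hD⟩ := exists_nat_ge (K * (J + C))
  obtain ⟨n0, h0⟩ := hdiv D
  obtain ⟨n1, h1⟩ := hr' (f (r 0))
  obtain ⟨m, hm⟩ := discrete_ivt (fun m => f (s m)) J (f (r (max n0 n1)))
    (by
      intro m
      have h2 := (hq (s (m + 1)) (s m)).2
      have h3 : (E.dist (s (m + 1)) (s m) : ℝ) ≤ 1 := by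
        rw [SimpleGraph.dist_comm]
        exact_mod_cast hs m
      have h4 : K * (E.dist (s (m + 1)) (s m) : ℝ) ≤ K * 1 :=
        mul_le_mul_of_nonneg_left h3 hK0.le
      linarith)
    (by
      rw [hs0]
      exact h1 _ (le_max_right _ _)) (by linarith) (hs' _)
  have h5 := h0 (max n0 n1) (le_max_left _ _) m
  have h6 := (hq (r (max n0 n1)) (s m)).1
  have h7 : (D : ℝ) < E.dist (r (max n0 n1)) (s m) := by exact_mod_cast h5
  rw [abs_sub_comm] at h6
  have h8 : K⁻¹ * (E.dist (r (max n0 n1)) (s m) : ℝ) ≤ J + C := by linarith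
  have h9 : (E.dist (r (max n0 n1)) (s m) : ℝ) ≤ K * (J + C) := by
    have := mul_le_mul_of_nonneg_left h8 hK0.le
    rwa [← mul_assoc, mul_inv_cancel₀ hK0.ne', one_mul] at this
  linarith

/-- A ray that goes away from its origin goes to plus or minus infinity. -/
theorem ray_end {X : Type*} {E : SimpleGraph X} (f : X → ℝ) (K C : ℝ) (hK : 1 ≤ K) (hC : 0 ≤ C)
    (hq : ∀ x y, K⁻¹ * (E.dist x y : ℝ) - C ≤ |f x - f y| ∧
      |f x - f y| ≤ K * (E.dist x y : ℝ) + C)
    (r : ℕ → X) (hr : ∀ n, E.dist (r n) (r (n + 1)) ≤ 1)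
    (hdiv : ∀ D : ℕ, ∃ n0, ∀ n ≥ n0, D < E.dist (r n) (r 0)) :
    (∀ R : ℝ, ∃ n0, ∀ n ≥ n0, R ≤ f (r n)) ∨ (∀ R : ℝ, ∃ n0, ∀ n ≥ n0, R ≤ -f (r n)) := by
  have hK0 : 0 < K := by linarith
  set J := K + C with hJ
  have hfar : ∀ R : ℝ, ∃ n0, ∀ n ≥ n0, R ≤ |f (r n) - f (r 0)| := by
    intro R
    obtain ⟨D, hD⟩ := exists_nat_ge (K * (R + C))
    obtain ⟨n0, h0⟩ := hdiv D
    refine ⟨n0, fun n hn => ?_⟩
    have h1 := (hq (r n) (r 0)).1
    have h2 : (D : ℝ) < E.dist (r n) (r 0) := by exact_mod_cast h0 n hn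
    have h3 : K * (R + C) ≤ (E.dist (r n) (r 0) : ℝ) := by linarith
    have h4 := mul_le_mul_of_nonneg_left h3 (inv_nonneg.mpr hK0.le)
    rw [← mul_assoc, inv_mul_cancel₀ hK0.ne', one_mul] at h4
    linarith
  obtain ⟨n1, h1⟩ := hfar (J + 1)
  have hstep : ∀ n, |f (r (n + 1)) - f (r n)| ≤ J := by
    intro m
    have h2 := (hq (r (m + 1)) (r m)).2
    have h3 : (E.dist (r (m + 1)) (r m) : ℝ) ≤ 1 := by
      rw [SimpleGraph.dist_comm]
      exact_mod_cast hr m
    have h4 : K * (E.dist (r (m + 1)) (r m) : ℝ) ≤ K * 1 :=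
      mul_le_mul_of_nonneg_left h3 hK0.le
    linarith
  have hJ0 : 0 ≤ J := by linarith
  rcases le_or_gt (f (r 0)) (f (r n1)) with hpos | hneg
  · left
    have hsign : ∀ k, f (r 0) ≤ f (r (n1 + k)) := by
      intro k
      induction k with
      | zero => exact hpos
      | succ k ih =>
        have h5 := h1 (n1 + k) (by omega)
        rw [abs_of_nonneg (by linarith)] at h5
        have h6 := hstep (n1 + k)
        rw [abs_le] at h6
        have e : n1 + (k + 1) = n1 + k + 1 := rfl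
        rw [e]
        linarith [h6.1]
    intro R
    obtain ⟨n2, h2⟩ := hfar (R - f (r 0))
    refine ⟨max n1 n2, fun n hn => ?_⟩
    have h3 := h2 n (le_trans (le_max_right _ _) hn)
    have h4 := hsign (n - n1)
    have e : n1 + (n - n1) = n := by
      have := le_trans (le_max_left n1 n2) hn
      omega
    rw [e] at h4
    rw [abs_of_nonneg (by linarith)] at h3
    linarith
  · right
    have hsign : ∀ k, f (r (n1 + k)) ≤ f (r 0) := by
      intro k
      induction k with
      | zero => exact hneg.le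
      | succ k ih =>
        have h5 := h1 (n1 + k) (by omega)
        rw [abs_of_nonpos (by linarith)] at h5
        have h6 := hstep (n1 + k)
        rw [abs_le] at h6
        have e : n1 + (k + 1) = n1 + k + 1 := rfl
        rw [e]
        linarith [h6.2]
    intro R
    obtain ⟨n2, h2⟩ := hfar (R + f (r 0))
    refine ⟨max n1 n2, fun n hn => ?_⟩
    have h3 := h2 n (le_trans (le_max_right _ _) hn)
    have h4 := hsign (n - n1)
    have e : n1 + (n - n1) = n := by
      have := le_trans (le_max_left n1 n2) hn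
      omega
    rw [e] at h4
    rw [abs_of_nonpos (by linarith)] at h3
    linarith

/-- Three pairwise diverging rays with the same origin do not exist in a quasi-line. -/
theorem not_quasiLine_of_three {X : Type*} {E : SimpleGraph X} (r : Fin 3 → ℕ → X)
    (h0 : ∀ i j, r i 0 = r j 0) (hr : ∀ i n, E.dist (r i n) (r i (n + 1)) ≤ 1)
    (hdiv : ∀ i j, i ≠ j → ∀ D : ℕ, ∃ n0, ∀ n ≥ n0, ∀ m, D < E.dist (r i n) (r j m)) :
    ¬ IsQuasiLine E := by
  rintro ⟨_, f, K, C, hK, hC, hq, _⟩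
  have hq' : ∀ x y, K⁻¹ * (E.dist x y : ℝ) - C ≤ |(-f x) - (-f y)| ∧
      |(-f x) - (-f y)| ≤ K * (E.dist x y : ℝ) + C := by
    intro x y
    have e : |(-f x) - (-f y)| = |f x - f y| := by
      rw [← abs_neg]; congr 1; ring
    rw [e]
    exact hq x y
  have hend : ∀ i, (∀ R : ℝ, ∃ n0, ∀ n ≥ n0, R ≤ f (r i n)) ∨
      (∀ R : ℝ, ∃ n0, ∀ n ≥ n0, R ≤ -f (r i n)) := by
    intro i
    refine ray_end f K C hK hC hq (r i) (hr i) ?_
    intro D
    obtain ⟨j, hj⟩ : ∃ j : Fin 3, i ≠ j := ⟨i + 1, by revert i; decide⟩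
    obtain ⟨n0, hn0⟩ := hdiv i j hj D
    refine ⟨n0, fun n hn => ?_⟩
    have := hn0 n hn 0
    rwa [h0 j i] at this
  have key : ∀ i j, i ≠ j → (∀ R : ℝ, ∃ n0, ∀ n ≥ n0, R ≤ f (r i n)) →
      (∀ R : ℝ, ∃ n0, ∀ n ≥ n0, R ≤ f (r j n)) → False := by
    intro i j hij hi hj
    exact two_rays f K C hK hC hq (r i) (r j) (by rw [h0 j i]) (hr j) hi
      (fun R => by obtain ⟨n, hn⟩ := hj R; exact ⟨n, hn n le_rfl⟩) (hdiv i j hij)
  have key' : ∀ i j, i ≠ j → (∀ R : ℝ, ∃ n0, ∀ n ≥ n0, R ≤ -f (r i n)) →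
      (∀ R : ℝ, ∃ n0, ∀ n ≥ n0, R ≤ -f (r j n)) → False := by
    intro i j hij hi hj
    exact two_rays (fun x => -f x) K C hK hC hq' (r i) (r j) (by rw [h0 j i]) (hr j) hi
      (fun R => by obtain ⟨n, hn⟩ := hj R; exact ⟨n, hn n le_rfl⟩) (hdiv i j hij)
  rcases hend 0 with a | a <;> rcases hend 1 with b | b <;> rcases hend 2 with c | c
  · exact key 0 1 (by decide) a b
  · exact key 0 1 (by decide) a b
  · exact key 0 2 (by decide) a c
  · exact key' 1 2 (by decide) b c
  · exact key 1 2 (by decide) b c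
  · exact key' 0 2 (by decide) a c
  · exact key' 0 1 (by decide) a b
  · exact key' 0 1 (by decide) a b

/-- Lipschitz on edges implies Lipschitz. -/
theorem lip_of_adj {X : Type*} {E : SimpleGraph X} (hE : E.Connected) (f : X → ℝ) (K : ℝ)
    (h : ∀ x y, E.Adj x y → |f x - f y| ≤ K) (x y : X) : |f x - f y| ≤ K * (E.dist x y : ℝ) := by
  obtain ⟨p, hp⟩ := hE.exists_walk_length_eq_dist x y
  rw [← hp]
  clear hp
  induction p with
  | nil => simp
  | @cons u v w huv p ih =>
    rw [SimpleGraph.Walk.length_cons]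
    have h1 := h u v huv
    have h2 : |f u - f w| ≤ |f u - f v| + |f v - f w| := abs_sub_le _ _ _
    push_cast
    linarith

/-- The Cayley graph of an infinite virtually cyclic group with respect to a finite generating
set is a quasi-line. -/
theorem quasiLine_of_virtuallyCyclic {G : Type*} [Group G] {S : Set G} (hfin : S.Finite)
    (hgen : Subgroup.closure S = ⊤) (c : G) (hc : (Subgroup.zpowers c).index ≠ 0)
    (hinf : ∀ n : ℤ, c ^ n = 1 → n = 0) : IsQuasiLine (cayley S) := by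
  classical
  have hcon := cay_connected hgen
  have hfinq : Finite (G ⧸ Subgroup.zpowers c) := by
    have : (Subgroup.zpowers c).FiniteIndex := ⟨hc⟩
    exact Subgroup.finite_quotient_of_finiteIndex
  let rep : G → G := fun g => (Quotient.out (QuotientGroup.mk (s := Subgroup.zpowers c) g⁻¹))⁻¹
  have hrep : ∀ g, ∃ n : ℤ, g = c ^ n * rep g := by
    intro g
    have h1 : (QuotientGroup.mk (s := Subgroup.zpowers c) g⁻¹) =
        QuotientGroup.mk (Quotient.out (QuotientGroup.mk (s := Subgroup.zpowers c) g⁻¹)) :=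
      (QuotientGroup.out_eq' _).symm
    rw [QuotientGroup.eq, inv_inv] at h1
    obtain ⟨n, hn⟩ := h1
    refine ⟨n, ?_⟩
    change g = c ^ n * (Quotient.out (QuotientGroup.mk (s := Subgroup.zpowers c) g⁻¹))⁻¹
    have hn' : c ^ n = g * Quotient.out (QuotientGroup.mk (s := Subgroup.zpowers c) g⁻¹) := hn
    rw [hn', mul_inv_cancel_right]
  choose n hn using hrep
  have hrepc : ∀ (k : ℤ) (g : G), rep (c ^ k * g) = rep g := by
    intro k g
    have h1 : (QuotientGroup.mk (s := Subgroup.zpowers c) (c ^ k * g)⁻¹) =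
        QuotientGroup.mk g⁻¹ := by
      rw [QuotientGroup.eq, inv_inv, mul_assoc, mul_inv_cancel, mul_one]
      exact ⟨k, rfl⟩
    change (Quotient.out (QuotientGroup.mk (s := Subgroup.zpowers c) (c ^ k * g)⁻¹))⁻¹ = _
    rw [h1]
  have hinj : ∀ a b : ℤ, c ^ a = c ^ b → a = b := by
    intro a b hab
    have : c ^ (a - b) = 1 := by rw [zpow_sub, hab, mul_inv_cancel]
    have := hinf _ this
    omega
  have hnc : ∀ (k : ℤ) (g : G), n (c ^ k * g) = k + n g := by
    intro k g
    have h1 := hn (c ^ k * g)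
    rw [hrepc] at h1
    apply hinj
    rw [zpow_add]
    have h2 : c ^ k * g = c ^ k * (c ^ n g * rep g) := by rw [← hn g]
    rw [h1, ← mul_assoc] at h2
    exact mul_right_cancel h2
  have hT : (Set.range rep).Finite := by
    have : Set.range rep ⊆ Set.range
        (fun q : G ⧸ Subgroup.zpowers c => (Quotient.out q)⁻¹) := by
      rintro _ ⟨g, rfl⟩
      exact ⟨QuotientGroup.mk g⁻¹, rfl⟩
    exact (Set.finite_range _).subset this
  obtain ⟨K0, hK0⟩ : ∃ K0 : ℕ, ∀ t ∈ Set.range rep, ∀ s ∈ S, (n (t * s)).natAbs ≤ K0 := by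
    have h1 : ((fun x : G × G => (n (x.1 * x.2)).natAbs) '' ((Set.range rep) ×ˢ S)).Finite :=
      (hT.prod hfin).image _
    obtain ⟨K0, h2⟩ := h1.bddAbove
    exact ⟨K0, fun t ht s hs => h2 ⟨(t, s), ⟨ht, hs⟩, rfl⟩⟩
  have hstep : ∀ (g s : G), s ∈ S → |(n (g * s) : ℝ) - n g| ≤ K0 := by
    intro g s hs
    have h1 : g * s = c ^ n g * (rep g * s) := by
      rw [← mul_assoc, ← hn g]
    rw [h1, hnc]
    have h2 := hK0 (rep g) ⟨g, rfl⟩ s hs
    push_cast
    have h3 : ((n g : ℝ) + n (rep g * s) - n g) = ((n (rep g * s) : ℤ) : ℝ) := by ring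
    rw [h3, ← Int.cast_abs, Int.abs_eq_natAbs]
    exact_mod_cast h2
  set d : G → ℕ := fun g => (cayley S).dist 1 g with hd
  have hdm : ∀ x y, d (x * y) ≤ d x + d y := by
    intro x y
    have h1 := hcon.dist_triangle (u := 1) (v := x) (w := x * y)
    have h2 := cay_dist_mul hcon x 1 y
    rw [mul_one] at h2
    simp only [hd]
    omega
  have hdi : ∀ x, d x⁻¹ = d x := by
    intro x
    have h2 := cay_dist_mul hcon x⁻¹ 1 x
    rw [mul_one, inv_mul_cancel, SimpleGraph.dist_comm] at h2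
    exact h2
  have hdp : ∀ k : ℕ, d (c ^ k) ≤ k * d c := by
    intro k
    induction k with
    | zero => simp [hd]
    | succ k ih =>
      rw [pow_succ]
      have := hdm (c ^ k) c
      have e : (k + 1) * d c = k * d c + d c := by ring
      omega
  have hdz : ∀ k : ℤ, d (c ^ k) ≤ k.natAbs * d c := by
    intro k
    rcases Int.natAbs_eq k with h | h
    · rw [h, zpow_natCast, Int.natAbs_natCast]; exact hdp _
    · rw [h, zpow_neg, zpow_natCast, hdi, Int.natAbs_neg, Int.natAbs_natCast]; exact hdp _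
  obtain ⟨M, hM⟩ : ∃ M : ℕ, ∀ t ∈ Set.range rep, d t ≤ M := by
    obtain ⟨M, h2⟩ := (hT.image d).bddAbove
    exact ⟨M, fun t ht => h2 ⟨t, ht, rfl⟩⟩
  have hlow : ∀ x y, ((cayley S).dist x y : ℝ) ≤ (d c : ℝ) * |(n x : ℝ) - n y| + 2 * M := by
    intro x y
    have h1 := cay_dist_mul hcon x⁻¹ x y
    rw [inv_mul_cancel] at h1
    have h2 : x⁻¹ * y = (rep x)⁻¹ * (c ^ (n y - n x) * rep y) := by
      conv_lhs => rw [hn x, hn y]
      rw [mul_inv_rev, sub_eq_neg_add, zpow_add, zpow_neg]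
      simp only [mul_assoc]
    have h3 : (cayley S).dist x y ≤ (n x - n y).natAbs * d c + 2 * M := by
      rw [← h1]
      change d (x⁻¹ * y) ≤ _
      rw [h2]
      have e1 := hdm (rep x)⁻¹ (c ^ (n y - n x) * rep y)
      have e2 := hdm (c ^ (n y - n x)) (rep y)
      have e3 := hdz (n y - n x)
      have e4 := hM (rep x) ⟨x, rfl⟩
      have e5 := hM (rep y) ⟨y, rfl⟩
      rw [hdi] at e1
      have e6 : (n y - n x).natAbs = (n x - n y).natAbs := by
        rw [← Int.natAbs_neg]; congr 1; ring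
      rw [e6] at e3
      omega
    have h4 : ((n x - n y).natAbs : ℝ) = |(n x : ℝ) - n y| := by
      rw [← Int.cast_sub, ← Int.cast_abs, Int.abs_eq_natAbs]
      simp
    have h5 : ((cayley S).dist x y : ℝ) ≤ ((n x - n y).natAbs : ℝ) * d c + 2 * M := by
      exact_mod_cast h3
    rw [h4] at h5
    linarith
  set K : ℝ := max 1 (max K0 (d c)) with hK
  have hK1 : 1 ≤ K := le_max_left _ _
  have hK2 : (K0 : ℝ) ≤ K := (le_max_left _ _).trans (le_max_right _ _)
  have hK3 : (d c : ℝ) ≤ K := (le_max_right _ _).trans (le_max_right _ _)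
  have hKp : 0 < K := by linarith
  refine ⟨hcon, fun g => (n g : ℝ), K, 2 * M + 1, hK1, by positivity, ?_, ?_⟩
  · intro x y
    constructor
    · have h1 := hlow x y
      have h2 : (d c : ℝ) * |(n x : ℝ) - n y| ≤ K * |(n x : ℝ) - n y| :=
        mul_le_mul_of_nonneg_right hK3 (abs_nonneg _)
      have h3 : ((cayley S).dist x y : ℝ) ≤ K * (|(n x : ℝ) - n y| + 2 * M) := by
        have : (2 * M : ℝ) ≤ K * (2 * M) := by
          have : (0 : ℝ) ≤ 2 * M := by positivity
          nlinarith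
        linarith
      have h4 := mul_le_mul_of_nonneg_left h3 (inv_nonneg.mpr hKp.le)
      rw [← mul_assoc, inv_mul_cancel₀ hKp.ne', one_mul] at h4
      linarith
    · have h1 := lip_of_adj hcon (fun g => (n g : ℝ)) K (by
        rintro a b ⟨_, hab⟩
        rcases hab with h | h
        · have := hstep a (a⁻¹ * b) h
          rw [mul_inv_cancel_left] at this
          rw [abs_sub_comm]
          exact this.trans hK2
        · have := hstep b (b⁻¹ * a) h
          rw [mul_inv_cancel_left] at this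
          exact this.trans hK2) x y
      have : (0 : ℝ) ≤ 2 * M + 1 := by positivity
      linarith
  · intro r
    refine ⟨c ^ (⌊r⌋ - n 1) * 1, ?_⟩
    change |((n (c ^ (⌊r⌋ - n 1) * 1) : ℤ) : ℝ) - r| ≤ _
    rw [hnc, sub_add_cancel]
    have h1 := Int.floor_le r
    have h2 := Int.lt_floor_add_one r
    have h3 : (0 : ℝ) ≤ 2 * M := by positivity
    rw [abs_le]
    constructor <;> linarith

end Q33.GP
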