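import Mathlib
import Pool.Agent.Y33.GP.Sys
import Pool.Agent.Q33.GP.Line

/-!
Rays in graph products: infinite words in which no two consecutive letters commute.
-/

namespace Q33.GP

open Pool.Agent.Y33.GP

set_option linter.unusedSectionVars false

section

variable {V : Type} (Γ : SimpleGraph V) (H : V → Type) [∀ v, Group (H v)]

/-- The subgroup generated by the vertex groups of `Λ`. -/
noncomputable def sub (Λ : Set V) : Subgroup (GProd Γ H) :=
  Subgroup.closure (⋃ v ∈ Λ, Set.range (inj Γ H v))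

theorem inj_mem_sub {Λ : Set V} {v : V} (hv : v ∈ Λ) (a : H v) : inj Γ H v a ∈ sub Γ H Λ :=
  Subgroup.subset_closure (Set.mem_biUnion hv ⟨a, rfl⟩)

theorem sub_mono {Λ Λ' : Set V} (h : Λ ⊆ Λ') : sub Γ H Λ ≤ sub Γ H Λ' :=
  Subgroup.closure_mono (Set.biUnion_subset_biUnion_left h)

theorem ind_right {P : GProd Γ H → Prop} (x : GProd Γ H) (h1 : P 1)
    (h2 : ∀ v (a : H v) x, P x → P (x * inj Γ H v a)) : P x := by
  have h := ind_left Γ H (P := fun y => P y⁻¹) x⁻¹ (by simpa using h1) (by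
    intro v a y hy
    rw [mul_inv_rev, ← map_inv]
    exact h2 v a⁻¹ _ hy)
  simpa using h

theorem head_sub {Λ : Set V} {v : V} (hv : v ∉ Λ) {s : GProd Γ H} (hs : s ∈ sub Γ H Λ)
    (x : GProd Γ H) : headv Γ H v (x * s) = headv Γ H v x := by
  unfold sub at hs
  induction hs using Subgroup.closure_induction generalizing x with
  | mem s hs =>
    simp only [Set.mem_iUnion] at hs
    obtain ⟨w, hw, a, rfl⟩ := hs
    exact headv_ne Γ H v (fun h => hv (h ▸ hw)) x a
  | one => rw [mul_one]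
  | mul a b _ _ ha hb => rw [← mul_assoc, hb, ha]
  | inv a _ ha =>
    have := ha (x * a⁻¹)
    rw [inv_mul_cancel_right] at this
    exact this.symm

theorem head_sub_one {Λ : Set V} {v : V} (hv : v ∉ Λ) {s : GProd Γ H} (hs : s ∈ sub Γ H Λ) :
    headv Γ H v s = 1 := by
  have := head_sub Γ H hv hs 1
  rwa [one_mul, headv_one] at this

theorem kap_mem_sub (Λ : Set V) (x : GProd Γ H) : kap Γ H Λ x ∈ sub Γ H Λ := by
  refine ind_left Γ H (P := fun x => kap Γ H Λ x ∈ sub Γ H Λ) x (by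
    rw [map_one]; exact Subgroup.one_mem _) ?_
  intro v a x hx
  rw [map_mul]
  refine Subgroup.mul_mem _ ?_ hx
  by_cases hv : v ∈ Λ
  · rw [kap_mem Γ H hv]; exact inj_mem_sub Γ H hv a
  · rw [kap_not Γ H hv]; exact Subgroup.one_mem _

/-- An element does not have nontrivial heads of two types that do not commute. -/
theorem head_head {u v : V} (huv : u ≠ v) (hadj : ¬ Γ.Adj u v) (z : GProd Γ H)
    (hu : headv Γ H u z ≠ 1) : headv Γ H v z = 1 := by
  revert hu
  have huv' : ¬ Γ.Adj v u := fun h => hadj h.symm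
  refine ind_right Γ H (P := fun z => headv Γ H u z ≠ 1 → headv Γ H v z = 1) z ?_ ?_
  · intro _; exact headv_one Γ H v
  · intro w b z ih
    by_cases hwu : w = u
    · subst hwu
      rw [headv_ne Γ H v huv z b]
      by_cases hk : kap Γ H (st Γ w) z = z
      · intro _
        have hz : z ∈ sub Γ H (st Γ w) := by rw [← hk]; exact kap_mem_sub Γ H _ _
        refine head_sub_one Γ H ?_ hz
        rintro (h | h)
        · exact huv h.symm
        · exact hadj h
      · rw [headv_not Γ H w hk b]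
        exact ih
    · by_cases hwv : w = v
      · subst hwv
        rw [headv_ne Γ H u hwu z b]
        by_cases hk : kap Γ H (st Γ w) z = z
        · intro hne
          exfalso
          apply hne
          have hz : z ∈ sub Γ H (st Γ w) := by rw [← hk]; exact kap_mem_sub Γ H _ _
          refine head_sub_one Γ H ?_ hz
          rintro (h | h)
          · exact huv h
          · exact huv' h
        · rw [headv_not Γ H w hk b]
          exact ih
      · rw [headv_ne Γ H u hwu z b, headv_ne Γ H v hwv z b]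
        exact ih

/-- A letter: an element of a vertex group. -/
abbrev Letter : Type := Σ v, H v

/-- The element of the graph product given by a letter. -/
noncomputable def el (l : Letter H) : GProd Γ H := inj Γ H l.1 l.2

/-- An infinite word whose letters are nontrivial and whose consecutive letters have distinct
nonadjacent types. -/
def IsRay (l : ℕ → Letter H) : Prop :=
  (∀ i, (l i).2 ≠ 1) ∧ ∀ i, (l i).1 ≠ (l (i + 1)).1 ∧ ¬ Γ.Adj (l i).1 (l (i + 1)).1

/-- The products of the initial segments. -/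
noncomputable def pre (l : ℕ → Letter H) : ℕ → GProd Γ H
  | 0 => 1
  | n + 1 => pre l n * el Γ H (l n)

/-- `y` is beyond the `i`-th wall. -/
def Bey (l : ℕ → Letter H) (i : ℕ) (y : GProd Γ H) : Prop :=
  headv Γ H (l i).1 ((pre Γ H l i)⁻¹ * y) = (l i).2

variable {Γ H}

theorem Bey.down {l : ℕ → Letter H} (hl : IsRay Γ H l) {i : ℕ} {y : GProd Γ H}
    (h : Bey Γ H l (i + 1) y) : Bey Γ H l i y := by
  unfold Bey at *
  have h1 : headv Γ H (l (i + 1)).1 ((pre Γ H l (i + 1))⁻¹ * y) ≠ 1 := by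
    rw [h]; exact hl.1 _
  have h2 := head_head Γ H (hl.2 i).1.symm (fun h => (hl.2 i).2 h.symm) _ h1
  have h3 : (pre Γ H l i)⁻¹ * y = inj Γ H (l i).1 (l i).2 * ((pre Γ H l (i + 1))⁻¹ * y) := by
    change _ = el Γ H (l i) * ((pre Γ H l i * el Γ H (l i))⁻¹ * y)
    group
  rw [h3, headv_same, h2, mul_one]

theorem Bey.le {l : ℕ → Letter H} (hl : IsRay Γ H l) {i j : ℕ} {y : GProd Γ H} (hij : i ≤ j)
    (h : Bey Γ H l j y) : Bey Γ H l i y := by
  induction j, hij using Nat.le_induction with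
  | base => exact h
  | succ j _ ih => exact ih (h.down hl)

theorem bey_pre {l : ℕ → Letter H} (hl : IsRay Γ H l) {i m : ℕ} (h : i < m) :
    Bey Γ H l i (pre Γ H l m) := by
  obtain ⟨k, rfl⟩ : ∃ k, m = k + 1 := ⟨m - 1, by omega⟩
  refine Bey.le hl (Nat.lt_succ_iff.mp h) ?_
  unfold Bey
  have h3 : (pre Γ H l k)⁻¹ * pre Γ H l (k + 1) = inj Γ H (l k).1 (l k).2 * 1 := by
    change (pre Γ H l k)⁻¹ * (pre Γ H l k * el Γ H (l k)) = el Γ H (l k) * 1
    group
  rw [h3, headv_same, headv_one, mul_one]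

/-- Moving by an element of `sub Λ` where `Λ` misses one of the types of a window. -/
theorem Bey.step {l : ℕ → Letter H} (hl : IsRay Γ H l) {Λ : Set V} {k L : ℕ}
    (hw : ∃ j, k ≤ j ∧ j ≤ k + L ∧ (l j).1 ∉ Λ) {s y : GProd Γ H} (hs : s ∈ sub Γ H Λ)
    (h : Bey Γ H l (k + L) (y * s)) : Bey Γ H l k y := by
  obtain ⟨j, h1, h2, h3⟩ := hw
  refine Bey.le hl h1 ?_
  have h4 := Bey.le hl h2 h
  unfold Bey at h4 ⊢
  rw [← mul_assoc, head_sub Γ H h3 hs] at h4
  exact h4

/-- Windows of the ray of length `L + 1` are not contained in any member of `LL`. -/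
def Window (l : ℕ → Letter H) (LL : Set (Set V)) (L : ℕ) : Prop :=
  ∀ k, ∀ Λ ∈ LL, ∃ j, k ≤ j ∧ j ≤ k + L ∧ (l j).1 ∉ Λ

/-- The distance grows linearly along a ray. -/
theorem bey_dist {l : ℕ → Letter H} (hl : IsRay Γ H l) {LL : Set (Set V)} {L : ℕ}
    (hw : Window l LL L) {S : Set (GProd Γ H)} (hcon : (cayley S).Connected)
    (hS : ∀ s ∈ S, ∃ Λ ∈ LL, s ∈ sub Γ H Λ) (k : ℕ) (x y : GProd Γ H)
    (h : Bey Γ H l (k + L * (cayley S).dist x y) y) : Bey Γ H l k x := by
  obtain ⟨p, hp⟩ := hcon.exists_walk_length_eq_dist x y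
  rw [← hp] at h
  clear hp
  induction p generalizing k with
  | nil => simpa using h
  | @cons u v w huv p ih =>
    rw [SimpleGraph.Walk.length_cons] at h
    have e : k + L * (p.length + 1) = (k + L) + L * p.length := by ring
    rw [e] at h
    have h1 := ih (k + L) h
    obtain ⟨_, huv | huv⟩ := huv
    · obtain ⟨Λ, hΛ, hs⟩ := hS _ huv
      have h2 : v = u * (u⁻¹ * v) := by group
      rw [h2] at h1
      exact Bey.step hl (hw k Λ hΛ) hs h1
    · obtain ⟨Λ, hΛ, hs⟩ := hS _ huv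
      have h2 : v = u * (v⁻¹ * u)⁻¹ := by group
      rw [h2] at h1
      exact Bey.step hl (hw k Λ hΛ) (Subgroup.inv_mem _ hs) h1

/-- Divergence of a ray from a sequence that does not go far beyond. -/
theorem diverge {l : ℕ → Letter H} (hl : IsRay Γ H l) {LL : Set (Set V)} {L : ℕ}
    (hw : Window l LL L) {S : Set (GProd Γ H)} (hcon : (cayley S).Connected)
    (hS : ∀ s ∈ S, ∃ Λ ∈ LL, s ∈ sub Γ H Λ) (q : ℕ → GProd Γ H) (k : ℕ)
    (hq : ∀ m, ¬ Bey Γ H l k (q m)) (D : ℕ) :
    ∃ n0, ∀ n ≥ n0, ∀ m, D < (cayley S).dist (pre Γ H l n) (q m) := by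
  refine ⟨k + L * D + 1, fun n hn m => ?_⟩
  by_contra hcon'
  push Not at hcon'
  apply hq m
  refine bey_dist hl hw hcon hS k (q m) (pre Γ H l n) ?_
  refine bey_pre hl ?_
  rw [SimpleGraph.dist_comm]
  have : L * (cayley S).dist (pre Γ H l n) (q m) ≤ L * D := Nat.mul_le_mul_left _ hcon'
  omega

/-- Points of a ray are not beyond the first wall of a ray starting with a letter of a distinct
nonadjacent type. -/
theorem not_bey_of_type {l l' : ℕ → Letter H} (hl : IsRay Γ H l) (hl' : IsRay Γ H l')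
    (h1 : (l 0).1 ≠ (l' 0).1) (h2 : ¬ Γ.Adj (l 0).1 (l' 0).1) (m : ℕ) :
    ¬ Bey Γ H l 0 (pre Γ H l' m) := by
  intro h
  unfold Bey at h
  change headv Γ H (l 0).1 (1⁻¹ * pre Γ H l' m) = _ at h
  rw [inv_one, one_mul] at h
  rcases Nat.eq_zero_or_pos m with rfl | hm
  · change headv Γ H (l 0).1 1 = _ at h
    rw [headv_one] at h
    exact hl.1 0 h.symm
  · have h3 := bey_pre hl' hm
    unfold Bey at h3
    change headv Γ H (l' 0).1 (1⁻¹ * pre Γ H l' m) = _ at h3
    rw [inv_one, one_mul] at h3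
    have h4 : headv Γ H (l' 0).1 (pre Γ H l' m) ≠ 1 := by rw [h3]; exact hl'.1 0
    have h5 := head_head Γ H h1.symm (fun h => h2 h.symm) _ h4
    rw [h5] at h
    exact hl.1 0 h.symm

/-- Prepending a letter. -/
def cons (a : Letter H) (l : ℕ → Letter H) : ℕ → Letter H
  | 0 => a
  | n + 1 => l n

theorem IsRay.cons {l : ℕ → Letter H} (hl : IsRay Γ H l) {a : Letter H} (ha : a.2 ≠ 1)
    (h1 : a.1 ≠ (l 0).1) (h2 : ¬ Γ.Adj a.1 (l 0).1) : IsRay Γ H (Q33.GP.cons a l) := by
  constructor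
  · intro i
    cases i with
    | zero => exact ha
    | succ i => exact hl.1 i
  · intro i
    cases i with
    | zero => exact ⟨h1, h2⟩
    | succ i => exact hl.2 i

theorem Window.cons {l : ℕ → Letter H} {LL : Set (Set V)} {L : ℕ} (hw : Window l LL L)
    (a : Letter H) : Window (Q33.GP.cons a l) LL (L + 1) := by
  intro k Λ hΛ
  rcases Nat.eq_zero_or_pos k with rfl | hk
  · obtain ⟨j, h1, h2, h3⟩ := hw 0 Λ hΛ
    exact ⟨j + 1, by omega, by omega, h3⟩
  · obtain ⟨k, rfl⟩ : ∃ i, k = i + 1 := ⟨k - 1, by omega⟩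
    obtain ⟨j, h1, h2, h3⟩ := hw k Λ hΛ
    exact ⟨j + 1, by omega, by omega, h3⟩

theorem Window.mono {l : ℕ → Letter H} {LL : Set (Set V)} {L L' : ℕ} (hw : Window l LL L)
    (h : L ≤ L') : Window l LL L' := by
  intro k Λ hΛ
  obtain ⟨j, h1, h2, h3⟩ := hw k Λ hΛ
  exact ⟨j, h1, by omega, h3⟩

theorem pre_cons (a : Letter H) (l : ℕ → Letter H) (m : ℕ) :
    pre Γ H (cons a l) (m + 1) = el Γ H a * pre Γ H l m := by
  induction m with
  | zero =>
    change 1 * el Γ H a = el Γ H a * 1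
    rw [one_mul, mul_one]
  | succ m ih =>
    change pre Γ H (cons a l) (m + 1) * el Γ H (l m) = el Γ H a * (pre Γ H l m * el Γ H (l m))
    rw [ih, mul_assoc]

/-- Points of a ray starting `v, w, v` are not beyond the second wall of a ray starting
`v, u, v`. -/
theorem not_bey_second {l l' : ℕ → Letter H} (hl : IsRay Γ H l) (hl' : IsRay Γ H l')
    (h0 : l 0 = l' 0) (h1 : (l 1).1 ≠ (l' 1).1) (h2 : (l' 2).1 = (l 0).1) (m : ℕ) :
    ¬ Bey Γ H l 1 (pre Γ H l' m) := by
  intro h
  unfold Bey at h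
  have hne : (l 1).2 ≠ 1 := hl.1 1
  have hu : (l 1).1 ≠ (l 0).1 := (hl.2 0).1.symm
  have e1 : pre Γ H l 1 = el Γ H (l 0) := by
    change 1 * el Γ H (l 0) = _
    rw [one_mul]
  rw [e1] at h
  rcases m with _ | _ | _ | m
  · change headv Γ H (l 1).1 ((el Γ H (l 0))⁻¹ * 1) = _ at h
    have e2 : (el Γ H (l 0))⁻¹ * 1 = 1 * inj Γ H (l 0).1 ((l 0).2)⁻¹ := by
      rw [mul_one, one_mul, map_inv]; rfl
    rw [e2, headv_ne Γ H _ hu.symm, headv_one] at h
    exact hne h.symm
  · change headv Γ H (l 1).1 ((el Γ H (l 0))⁻¹ * (1 * el Γ H (l' 0))) = _ at h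
    rw [h0, one_mul, inv_mul_cancel, headv_one] at h
    exact hne h.symm
  · change headv Γ H (l 1).1 ((el Γ H (l 0))⁻¹ * (1 * el Γ H (l' 0) * el Γ H (l' 1))) = _ at h
    rw [h0, one_mul, inv_mul_cancel_left] at h
    have e2 : el Γ H (l' 1) = 1 * inj Γ H (l' 1).1 (l' 1).2 := by rw [one_mul]; rfl
    rw [e2, headv_ne Γ H _ h1.symm, headv_one] at h
    exact hne h.symm
  · -- the remaining part of the word
    set z := (pre Γ H l' 2)⁻¹ * pre Γ H l' (m + 1 + 1 + 1) with hz
    have hz1 : headv Γ H (l' 2).1 z ≠ 1 := by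
      have := bey_pre hl' (show 2 < m + 1 + 1 + 1 by omega)
      unfold Bey at this
      rw [hz, this]
      exact hl'.1 2
    have hz2 : (el Γ H (l 0))⁻¹ * pre Γ H l' (m + 1 + 1 + 1) =
        inj Γ H (l' 1).1 (l' 1).2 * z := by
      have e3 : pre Γ H l' 2 = el Γ H (l' 0) * el Γ H (l' 1) := by
        change 1 * el Γ H (l' 0) * el Γ H (l' 1) = _
        rw [one_mul]
      change _ = el Γ H (l' 1) * z
      rw [hz, e3, h0]
      group
    rw [hz2] at h
    have hadj0 : ¬ Γ.Adj (l 0).1 (l 1).1 := (hl.2 0).2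
    have hz3 : headv Γ H (l 1).1 z = 1 := by
      refine head_head Γ H ?_ ?_ z hz1
      · rw [h2]; exact hu.symm
      · rw [h2]; exact hadj0
    by_cases hadj : Γ.Adj (l 1).1 (l' 1).1
    · rw [headv_adj Γ H _ hadj, hz3] at h
      exact hne h.symm
    · have hz4 : headv Γ H (l' 1).1 z = 1 :=
        head_head Γ H (hl'.2 1).1.symm (fun h => (hl'.2 1).2 h.symm) z hz1
      have hz5 : headv Γ H (l' 1).1 (inj Γ H (l' 1).1 (l' 1).2 * z) ≠ 1 := by
        rw [headv_same, hz4, mul_one]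
        exact hl'.1 1
      have hz6 := head_head Γ H h1.symm (fun h => hadj h.symm) _ hz5
      rw [hz6] at h
      exact hne h.symm

end

end Q33.GP
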