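import Mathlib
import Pool.Agent.Q33.GP.Rays

/-!
Graph products of finite groups: finite subgroups, boundedness, and the three rays.
-/

namespace Q33.GP

open Pool.Agent.Y33.GP

set_option linter.unusedSectionVars false

section

variable {V : Type} (Γ : SimpleGraph V) (H : V → Type) [∀ v, Group (H v)]

/-- Two vertices with nontrivial groups that do not commute. -/
def NP (x y : V) : Prop := x ≠ y ∧ ¬ Γ.Adj x y ∧ Nontrivial (H x) ∧ Nontrivial (H y)

variable {Γ H}

theorem NP.symm {x y : V} (h : NP Γ H x y) : NP Γ H y x :=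
  ⟨h.1.symm, fun h' => h.2.1 h'.symm, h.2.2.2, h.2.2.1⟩

variable (Γ H)

/-- The vertices that occur in such a pair. -/
def G1 : Set V := {x | ∃ y, NP Γ H x y}

theorem comm_of_not_NP {x y : V} (hxy : x ≠ y) (h : ¬ NP Γ H x y) (a : H x) (b : H y) :
    inj Γ H x a * inj Γ H y b = inj Γ H y b * inj Γ H x a := by
  by_cases hadj : Γ.Adj x y
  · exact inj_comm Γ H hadj a b
  · by_cases hx : Nontrivial (H x)
    · by_cases hy : Nontrivial (H y)
      · exact absurd ⟨hxy, hadj, hx, hy⟩ h
      · rw [not_nontrivial_iff_subsingleton] at hy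
        rw [Subsingleton.elim b 1, map_one, one_mul, mul_one]
    · rw [not_nontrivial_iff_subsingleton] at hx
      rw [Subsingleton.elim a 1, map_one, one_mul, mul_one]

/-- A homomorphism to a group in which the images of the vertex groups commute has finite image. -/
theorem finite_of_comm [Finite V] [∀ v, Finite (H v)] {Q : Type} [Group Q] (Λ : Set V)
    (F : GProd Γ H →* Q)
    (h : ∀ x ∈ Λ, ∀ y ∈ Λ, x ≠ y → ∀ (a : H x) (b : H y),
      F (inj Γ H x a) * F (inj Γ H y b) = F (inj Γ H y b) * F (inj Γ H x a)) :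
    ((sub Γ H Λ).map F : Set Q).Finite := by
  classical
  have := Fintype.ofFinite Λ
  let φ : ∀ v : Λ, H v →* Q := fun v => F.comp (inj Γ H v)
  have hcomm : Pairwise fun i j => ∀ x y, Commute (φ i x) (φ j y) := by
    intro i j hij x y
    exact h i i.2 j j.2 (fun e => hij (Subtype.ext e)) x y
  have hle : (sub Γ H Λ).map F ≤ (MonoidHom.noncommPiCoprod φ hcomm).range := by
    rw [Subgroup.map_le_iff_le_comap]
    unfold sub
    rw [Subgroup.closure_le]
    intro s hs
    simp only [Set.mem_iUnion] at hs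
    obtain ⟨w, hw, a, rfl⟩ := hs
    refine ⟨Pi.mulSingle (⟨w, hw⟩ : Λ) a, ?_⟩
    rw [MonoidHom.noncommPiCoprod_mulSingle]
    rfl
  have hfin : ((MonoidHom.noncommPiCoprod φ hcomm).range : Set Q).Finite := by
    rw [MonoidHom.coe_range]
    exact Set.finite_range _
  exact hfin.subset hle

theorem finite_sub [Finite V] [∀ v, Finite (H v)] (Λ : Set V)
    (h : ∀ x ∈ Λ, ∀ y ∈ Λ, ¬ NP Γ H x y) : ((sub Γ H Λ) : Set (GProd Γ H)).Finite := by
  have := finite_of_comm Γ H Λ (MonoidHom.id _) (by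
    intro x hx y hy hxy a b
    exact comm_of_not_NP Γ H hxy (h x hx y hy) a b)
  rwa [Subgroup.map_id] at this

theorem comm_G1 {v : V} (hv : v ∉ G1 Γ H) (a : H v) {h : GProd Γ H} (hh : h ∈ sub Γ H (G1 Γ H)) :
    inj Γ H v a * h = h * inj Γ H v a := by
  unfold sub at hh
  induction hh using Subgroup.closure_induction with
  | mem s hs =>
    simp only [Set.mem_iUnion] at hs
    obtain ⟨w, hw, b, rfl⟩ := hs
    exact comm_of_not_NP Γ H (by rintro rfl; exact hv hw) (fun h => hv ⟨w, h⟩) a b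
  | one => rw [one_mul, mul_one]
  | mul x y _ _ hx hy => rw [← mul_assoc, hx, mul_assoc, hy, mul_assoc]
  | inv x _ hx =>
    exact (Commute.inv_right (show Commute (inj Γ H v a) x from hx)).eq

theorem exists_split (g : GProd Γ H) :
    ∃ h ∈ sub Γ H (G1 Γ H), ∃ f ∈ sub Γ H (G1 Γ H)ᶜ, g = h * f := by
  refine ind_left Γ H (P := fun g => ∃ h ∈ sub Γ H (G1 Γ H), ∃ f ∈ sub Γ H (G1 Γ H)ᶜ,
    g = h * f) g ⟨1, Subgroup.one_mem _, 1, Subgroup.one_mem _, by rw [one_mul]⟩ ?_
  rintro v a _ ⟨h, hh, f, hf, rfl⟩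
  by_cases hv : v ∈ G1 Γ H
  · exact ⟨inj Γ H v a * h, Subgroup.mul_mem _ (inj_mem_sub Γ H hv a) hh, f, hf,
      by rw [mul_assoc]⟩
  · refine ⟨h, hh, inj Γ H v a * f, Subgroup.mul_mem _ (inj_mem_sub Γ H hv a) hf, ?_⟩
    rw [← mul_assoc, comm_G1 Γ H hv a hh, mul_assoc]

variable {Γ H}

theorem gen_top {S : Set (GProd Γ H)} (hinj : ∀ v (a : H v), inj Γ H v a ∈ S) :
    Subgroup.closure S = ⊤ := by
  rw [eq_top_iff]
  rintro x -
  refine ind_left Γ H (P := fun x => x ∈ Subgroup.closure S) x (Subgroup.one_mem _) ?_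
  intro v a x hx
  exact Subgroup.mul_mem _ (Subgroup.subset_closure (hinj v a)) hx

theorem bounded_of [Finite V] [∀ v, Finite (H v)] {S : Set (GProd Γ H)}
    (hinj : ∀ v (a : H v), inj Γ H v a ∈ S) {Λ : Set V} (hΛ : G1 Γ H ⊆ Λ)
    (hS : ∀ x ∈ sub Γ H Λ, x ∈ S ∨ x = 1) : ¬ IsQuasiLine (cayley S) := by
  have hcon := cay_connected (gen_top hinj)
  have hF : ((sub Γ H (G1 Γ H)ᶜ) : Set (GProd Γ H)).Finite := by
    apply finite_sub
    intro x hx y _ h
    exact hx ⟨y, h⟩
  obtain ⟨M, hM⟩ : ∃ M : ℕ, ∀ f ∈ sub Γ H (G1 Γ H)ᶜ, (cayley S).dist 1 f ≤ M := by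
    obtain ⟨M, h2⟩ := (hF.image fun f => (cayley S).dist 1 f).bddAbove
    exact ⟨M, fun t ht => h2 ⟨t, ht, rfl⟩⟩
  refine not_quasiLine_of_bounded (1 : GProd Γ H) (1 + M) ?_
  intro g
  obtain ⟨h, hh, f, hf, rfl⟩ := exists_split Γ H g
  have h1 := hcon.dist_triangle (u := 1) (v := h) (w := h * f)
  have h2 := cay_dist_mul hcon h 1 f
  rw [mul_one] at h2
  have h3 := hM f hf
  have h4 : (cayley S).dist 1 h ≤ 1 := by
    rcases hS h (sub_mono Γ H hΛ hh) with h5 | h5
    · have := cay_dist_le_one (S := S) 1 h5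
      rwa [one_mul] at this
    · rw [h5]; simp
  omega

/-- The criterion with three rays. -/
theorem no_rays {S : Set (GProd Γ H)} (hinj : ∀ v (a : H v), inj Γ H v a ∈ S)
    {LL : Set (Set V)} (hS : ∀ s ∈ S, ∃ Λ ∈ LL, s ∈ sub Γ H Λ) (l : Fin 3 → ℕ → Letter H)
    (hl : ∀ i, IsRay Γ H (l i)) (hw : ∀ i, ∃ L, Window (l i) LL L)
    (hb : ∀ i j, i ≠ j → ∃ k, ∀ m, ¬ Bey Γ H (l i) k (pre Γ H (l j) m)) :
    ¬ IsQuasiLine (cayley S) := by
  have hcon := cay_connected (gen_top hinj)
  refine not_quasiLine_of_three (fun i n => pre Γ H (l i) n) ?_ ?_ ?_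
  · intro i j; rfl
  · intro i n
    change (cayley S).dist (pre Γ H (l i) n) (pre Γ H (l i) n * el Γ H (l i n)) ≤ 1
    exact cay_dist_le_one _ (hinj _ _)
  · intro i j hij D
    obtain ⟨k, hk⟩ := hb i j hij
    obtain ⟨L, hL⟩ := hw i
    exact diverge (hl i) hL hcon hS _ k hk D

variable (Γ H)

/-- The graph of noncommuting pairs. -/
def KG : SimpleGraph V where
  Adj := NP Γ H
  symm := ⟨fun _ _ h => h.symm⟩
  loopless := ⟨fun _ h => h.1 rfl⟩

theorem cover_walk {V : Type} [Finite V] (K : SimpleGraph V) (a : V) (T : Set V)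
    (h : ∀ x ∈ T, K.Reachable a x) : ∃ p : K.Walk a a, ∀ x ∈ T, x ∈ p.support := by
  have hT : T.Finite := Set.toFinite T
  induction T, hT using Set.Finite.induction_on with
  | empty => exact ⟨SimpleGraph.Walk.nil, by simp⟩
  | @insert x T _ _ ih =>
    obtain ⟨p, hp⟩ := ih (fun y hy => h y (Set.mem_insert_of_mem _ hy))
    obtain ⟨q⟩ := h x (Set.mem_insert _ _)
    refine ⟨p.append (q.append q.reverse), ?_⟩
    intro y hy
    rw [SimpleGraph.Walk.mem_support_append_iff, SimpleGraph.Walk.mem_support_append_iff]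
    rcases Set.mem_insert_iff.mp hy with rfl | hy
    · exact Or.inr (Or.inl q.end_mem_support)
    · exact Or.inl (hp y hy)

/-- The periodic sequence of vertices along a closed walk. -/
theorem exists_seq {V : Type} [Finite V] (K : SimpleGraph V) (a : V) (T : Set V)
    (h : ∀ x ∈ T, K.Reachable a x) (hb : ∃ b ∈ T, b ≠ a) :
    ∃ (x : ℕ → V) (L : ℕ), x 0 = a ∧ (∀ i, K.Adj (x i) (x (i + 1))) ∧
      ∀ v ∈ T, ∀ k, ∃ j, k ≤ j ∧ j ≤ k + L ∧ x j = v := by
  obtain ⟨p, hp⟩ := cover_walk K a T h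
  have hlen : 0 < p.length := by
    rcases Nat.eq_zero_or_pos p.length with h0 | h0
    · obtain ⟨b, hbT, hba⟩ := hb
      have h1 := hp b hbT
      rw [SimpleGraph.Walk.mem_support_iff_exists_getVert] at h1
      obtain ⟨n, hn, hn'⟩ := h1
      exfalso
      apply hba
      have : n = 0 := by omega
      rw [← hn, this, SimpleGraph.Walk.getVert_zero]
    · exact h0
  refine ⟨fun i => p.getVert (i % p.length), 2 * p.length, ?_, ?_, ?_⟩
  · simp
  · intro i
    change K.Adj (p.getVert (i % p.length)) (p.getVert ((i + 1) % p.length))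
    have h1 : i % p.length < p.length := Nat.mod_lt _ hlen
    have h2 := p.adj_getVert_succ h1
    by_cases h3 : i % p.length + 1 = p.length
    · have h4 : (i + 1) % p.length = 0 := by
        rw [Nat.add_mod]
        rcases Nat.lt_or_ge 1 p.length with h5 | h5
        · rw [Nat.mod_eq_of_lt h5, h3, Nat.mod_self]
        · have : p.length = 1 := by omega
          rw [this, Nat.mod_one]
      rw [h4, SimpleGraph.Walk.getVert_zero]
      rw [h3, SimpleGraph.Walk.getVert_length] at h2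
      exact h2
    · have h4 : (i + 1) % p.length = i % p.length + 1 := by
        rw [Nat.add_mod, Nat.mod_eq_of_lt (show 1 < p.length by omega),
          Nat.mod_eq_of_lt (by omega)]
      rw [h4]
      exact h2
  · intro v hv k
    have h1 := hp v hv
    rw [SimpleGraph.Walk.mem_support_iff_exists_getVert] at h1
    obtain ⟨n, hn, hn'⟩ := h1
    obtain ⟨n, hn, hn'⟩ : ∃ n, p.getVert n = v ∧ n < p.length := by
      rcases Nat.lt_or_eq_of_le hn' with h | h
      · exact ⟨n, hn, h⟩
      · refine ⟨0, ?_, hlen⟩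
        rw [← hn, h, SimpleGraph.Walk.getVert_length, SimpleGraph.Walk.getVert_zero]
    refine ⟨(k / p.length + 1) * p.length + n, ?_, ?_, ?_⟩
    · have := Nat.div_add_mod k p.length
      have h3 := Nat.mod_lt k hlen
      have e : (k / p.length + 1) * p.length = p.length * (k / p.length) + p.length := by ring
      omega
    · have := Nat.div_add_mod k p.length
      have h3 := Nat.mod_lt k hlen
      have e : (k / p.length + 1) * p.length = p.length * (k / p.length) + p.length := by ring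
      omega
    · change p.getVert (((k / p.length + 1) * p.length + n) % p.length) = v
      rw [Nat.add_comm, Nat.add_mul_mod_self_right, Nat.mod_eq_of_lt hn', hn]

open Classical in
/-- A nontrivial element of each nontrivial vertex group. -/
noncomputable def al (v : V) : H v :=
  if h : Nontrivial (H v) then (@exists_ne (H v) h 1).choose else 1

theorem al_ne {v : V} (h : Nontrivial (H v)) : al H v ≠ 1 := by
  unfold al
  rw [dif_pos h]
  exact (@exists_ne (H v) h 1).choose_spec

variable {Γ H}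

theorem ray_of_seq {x : ℕ → V} (hx : ∀ i, NP Γ H (x i) (x (i + 1))) :
    IsRay Γ H (fun i => (⟨x i, al H (x i)⟩ : Letter H)) :=
  ⟨fun i => al_ne H (hx i).2.2.1, fun i => ⟨(hx i).1, (hx i).2.1⟩⟩

end

end Q33.GP
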