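import Mathlib
import Pool.Agent.Q33.GP.Main

/-!
Assembly: quasi-lines force a unique noncommuting pair of groups of order two; and the virtually
cyclic graph products.
-/

namespace Q33.GP

open Pool.Agent.Y33.GP

set_option linter.unusedSectionVars false

section

variable {V : Type} {Γ : SimpleGraph V} {H : V → Type} [∀ v, Group (H v)]

/-- helper: three rays given explicitly. -/
theorem no_three {S : Set (GProd Γ H)} (hinj : ∀ v (a : H v), inj Γ H v a ∈ S)
    {LL : Set (Set V)} (hS : ∀ s ∈ S, ∃ Λ ∈ LL, s ∈ sub Γ H Λ) (l0 l1 l2 : ℕ → Letter H)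
    (h0 : IsRay Γ H l0) (h1 : IsRay Γ H l1) (h2 : IsRay Γ H l2)
    (w0 : ∃ L, Window l0 LL L) (w1 : ∃ L, Window l1 LL L) (w2 : ∃ L, Window l2 LL L)
    (b01 : ∃ k, ∀ m, ¬ Bey Γ H l0 k (pre Γ H l1 m)) (b10 : ∃ k, ∀ m, ¬ Bey Γ H l1 k (pre Γ H l0 m))
    (b02 : ∃ k, ∀ m, ¬ Bey Γ H l0 k (pre Γ H l2 m)) (b20 : ∃ k, ∀ m, ¬ Bey Γ H l2 k (pre Γ H l0 m))
    (b12 : ∃ k, ∀ m, ¬ Bey Γ H l1 k (pre Γ H l2 m)) (b21 : ∃ k, ∀ m, ¬ Bey Γ H l2 k (pre Γ H l1 m)) :
    ¬ IsQuasiLine (cayley S) := by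
  refine no_rays hinj hS ![l0, l1, l2] ?_ ?_ ?_
  · intro i; fin_cases i
    · exact h0
    · exact h1
    · exact h2
  · intro i; fin_cases i
    · exact w0
    · exact w1
    · exact w2
  · intro i j hij
    fin_cases i <;> fin_cases j
    · exact absurd rfl hij
    · exact b01
    · exact b02
    · exact b10
    · exact absurd rfl hij
    · exact b12
    · exact b20
    · exact b21
    · exact absurd rfl hij

/-- The first wall of a ray and the points of a word in other vertex groups. -/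
theorem not_bey_of_sub {l l' : ℕ → Letter H} (hl : IsRay Γ H l) {Λ : Set V}
    (h : ∀ i, (l' i).1 ∈ Λ) (h0 : (l 0).1 ∉ Λ) (m : ℕ) : ¬ Bey Γ H l 0 (pre Γ H l' m) := by
  intro hb
  unfold Bey at hb
  change headv Γ H (l 0).1 (1⁻¹ * pre Γ H l' m) = _ at hb
  rw [inv_one, one_mul] at hb
  have hm : ∀ m, pre Γ H l' m ∈ sub Γ H Λ := by
    intro m
    induction m with
    | zero => exact Subgroup.one_mem _
    | succ m ih => exact Subgroup.mul_mem _ ih (inj_mem_sub Γ H (h m) _)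
  rw [head_sub_one Γ H h0 (hm m)] at hb
  exact hl.1 0 hb.symm

/-- Points of a ray whose first letter has the same type but is different are not beyond the
first wall. -/
theorem not_bey_of_letter {l l' : ℕ → Letter H} (hl : IsRay Γ H l) (hl' : IsRay Γ H l')
    {u : V} {a a' : H u} (h0 : l 0 = ⟨u, a⟩) (h0' : l' 0 = ⟨u, a'⟩) (hne : a ≠ a') (m : ℕ) :
    ¬ Bey Γ H l 0 (pre Γ H l' m) := by
  have key : ∀ (l : ℕ → Letter H) (a : H u), l 0 = ⟨u, a⟩ → ∀ y, Bey Γ H l 0 y →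
      headv Γ H u y = a := by
    intro l a h y hy
    unfold Bey at hy
    change headv Γ H (l 0).1 (1⁻¹ * y) = _ at hy
    rw [inv_one, one_mul, h] at hy
    exact hy
  intro hb
  have h1 := key l a h0 _ hb
  rcases Nat.eq_zero_or_pos m with rfl | hm
  · change headv Γ H u 1 = a at h1
    rw [headv_one] at h1
    have := hl.1 0
    rw [h0] at this
    exact this h1.symm
  · have h2 := key l' a' h0' _ (bey_pre hl' hm)
    exact hne (h1.symm.trans h2)

/-- The alternating sequence. -/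
def alt {V : Type} (a b : V) (i : ℕ) : V := if i % 2 = 0 then a else b

theorem alt_zero {V : Type} (a b : V) : alt a b 0 = a := rfl

theorem alt_NP {a b : V} (h : NP Γ H a b) (i : ℕ) : NP Γ H (alt a b i) (alt a b (i + 1)) := by
  unfold alt
  rcases Nat.mod_two_eq_zero_or_one i with h0 | h0
  · rw [if_pos h0, if_neg (by omega)]
    exact h
  · rw [if_neg (by omega), if_pos (by omega)]
    exact h.symm

theorem alt_window {a b : V} {LL : Set (Set V)} (h : ∀ Λ ∈ LL, ¬ (a ∈ Λ ∧ b ∈ Λ)) :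
    Window (fun i => (⟨alt a b i, al H (alt a b i)⟩ : Letter H)) LL 1 := by
  intro k Λ hΛ
  by_contra hcon
  push Not at hcon
  have h1 := hcon k le_rfl (by omega)
  have h2 := hcon (k + 1) (by omega) le_rfl
  simp only [alt] at h1 h2
  apply h Λ hΛ
  rcases Nat.mod_two_eq_zero_or_one k with h0 | h0
  · rw [if_pos h0] at h1
    rw [if_neg (by omega)] at h2
    exact ⟨h1, h2⟩
  · rw [if_neg (by omega)] at h1
    rw [if_pos (by omega)] at h2
    exact ⟨h2, h1⟩

variable [Finite V] [∀ v, Finite (H v)]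

/-- If the Cayley graph is a quasi-line, then there is a unique noncommuting pair and both groups
have order two. -/
theorem unique_pair {S : Set (GProd Γ H)} (hinj : ∀ v (a : H v), inj Γ H v a ∈ S)
    {LL : Set (Set V)} (hS : ∀ s ∈ S, ∃ Λ ∈ LL, s ∈ sub Γ H Λ)
    (h3 : ∀ Λ ∈ LL, ¬ G1 Γ H ⊆ Λ)
    (h4 : ∀ x y, x ∈ G1 Γ H → y ∈ G1 Γ H → ¬ (KG Γ H).Reachable x y →
      ∀ Λ ∈ LL, ∀ u v, NP Γ H u v → ¬ (u ∈ Λ ∧ v ∈ Λ))
    (h5 : ∃ u v, NP Γ H u v) (hql : IsQuasiLine (cayley S)) :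
    ∃ u v, NP Γ H u v ∧ Nat.card (H u) = 2 ∧ Nat.card (H v) = 2 ∧
      ∀ x y, NP Γ H x y → (x = u ∧ y = v) ∨ (x = v ∧ y = u) := by
  by_cases hconn : ∀ x y, x ∈ G1 Γ H → y ∈ G1 Γ H → (KG Γ H).Reachable x y
  · -- base rays
    have hbase : ∀ u v, NP Γ H u v → ∃ l : ℕ → Letter H, IsRay Γ H l ∧
        (∃ L, Window l LL L) ∧ (l 0).1 = u := by
      intro u v huv
      obtain ⟨x, L, hx0, hx1, hx2⟩ := exists_seq (KG Γ H) u (G1 Γ H)
        (fun y hy => hconn u y ⟨v, huv⟩ hy) ⟨v, ⟨u, huv.symm⟩, huv.1.symm⟩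
      refine ⟨_, ray_of_seq hx1, ⟨L, ?_⟩, hx0⟩
      intro k Λ hΛ
      have h6 := h3 Λ hΛ
      rw [Set.not_subset] at h6
      obtain ⟨z, hz, hzΛ⟩ := h6
      obtain ⟨j, h7, h8, h9⟩ := hx2 z hz k
      refine ⟨j, h7, h8, ?_⟩
      change x j ∉ Λ
      rw [h9]; exact hzΛ
    -- orders are two
    have hcard : ∀ u v, NP Γ H u v → Nat.card (H u) = 2 := by
      intro u v huv
      by_contra hne
      have hnt : Nontrivial (H u) := huv.2.2.1
      have h6 : 2 < Nat.card (H u) := by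
        have := Finite.one_lt_card_iff_nontrivial.mpr hnt
        omega
      obtain ⟨a', ha1, ha2⟩ : ∃ a' : H u, a' ≠ 1 ∧ a' ≠ al H u := by
        by_contra hcon
        push Not at hcon
        have h7 : (Set.univ : Set (H u)) ⊆ {1, al H u} := by
          intro z _
          by_cases hz : z = 1
          · exact Or.inl hz
          · exact Or.inr (hcon z hz)
        have h8 := Set.ncard_le_ncard h7 (Set.toFinite _)
        rw [Set.ncard_univ] at h8
        have h9 := Set.ncard_insert_le (1 : H u) {al H u}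
        rw [Set.ncard_singleton] at h9
        omega
      obtain ⟨l, hl, hw, hl0⟩ := hbase v u huv.symm
      have e1 : u ≠ (l 0).1 := by rw [hl0]; exact huv.1
      have e2 : ¬ Γ.Adj u (l 0).1 := by rw [hl0]; exact huv.2.1
      have r1 : IsRay Γ H (cons ⟨u, al H u⟩ l) := hl.cons (al_ne H hnt) e1 e2
      have r2 : IsRay Γ H (cons ⟨u, a'⟩ l) := hl.cons ha1 e1 e2
      have ww : ∀ c : Letter H, ∃ L, Window (cons c l) LL L := by
        intro c
        obtain ⟨L, hL⟩ := hw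
        exact ⟨L + 1, hL.cons c⟩
      refine no_three hinj hS _ _ _ r1 r2 hl (ww _) (ww _) hw ?_ ?_ ?_ ?_ ?_ ?_ hql
      · exact ⟨0, not_bey_of_letter r1 r2 rfl rfl ha2.symm⟩
      · exact ⟨0, not_bey_of_letter r2 r1 rfl rfl ha2⟩
      · exact ⟨0, not_bey_of_type r1 hl e1 e2⟩
      · exact ⟨0, not_bey_of_type hl r1 e1.symm (fun h => e2 h.symm)⟩
      · exact ⟨0, not_bey_of_type r2 hl e1 e2⟩
      · exact ⟨0, not_bey_of_type hl r2 e1.symm (fun h => e2 h.symm)⟩
    -- unique neighbours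
    have huniq : ∀ v u w, NP Γ H v u → NP Γ H v w → u = w := by
      intro v u w hvu hvw
      by_contra huw
      obtain ⟨l, hl, hw, hl0⟩ := hbase v u hvu
      have eu1 : u ≠ (l 0).1 := by rw [hl0]; exact hvu.1.symm
      have eu2 : ¬ Γ.Adj u (l 0).1 := by rw [hl0]; exact hvu.symm.2.1
      have ew1 : w ≠ (l 0).1 := by rw [hl0]; exact hvw.1.symm
      have ew2 : ¬ Γ.Adj w (l 0).1 := by rw [hl0]; exact hvw.symm.2.1
      have ru : IsRay Γ H (cons ⟨u, al H u⟩ l) := hl.cons (al_ne H hvu.2.2.2) eu1 eu2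
      have rw' : IsRay Γ H (cons ⟨w, al H w⟩ l) := hl.cons (al_ne H hvw.2.2.2) ew1 ew2
      have r1 : IsRay Γ H (cons ⟨v, al H v⟩ (cons ⟨u, al H u⟩ l)) :=
        ru.cons (al_ne H hvu.2.2.1) hvu.1 hvu.2.1
      have r2 : IsRay Γ H (cons ⟨v, al H v⟩ (cons ⟨w, al H w⟩ l)) :=
        rw'.cons (al_ne H hvw.2.2.1) hvw.1 hvw.2.1
      have ww : ∀ c : Letter H, ∃ L, Window (cons c l) LL L := by
        intro c
        obtain ⟨L, hL⟩ := hw
        exact ⟨L + 1, hL.cons c⟩
      have ww2 : ∀ c c' : Letter H, ∃ L, Window (cons c (cons c' l)) LL L := by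
        intro c c'
        obtain ⟨L, hL⟩ := hw
        exact ⟨L + 1 + 1, (hL.cons c').cons c⟩
      refine no_three hinj hS _ _ _ r1 r2 ru (ww2 _ _) (ww2 _ _) (ww _) ?_ ?_ ?_ ?_ ?_ ?_ hql
      · exact ⟨1, not_bey_second r1 r2 rfl huw hl0⟩
      · exact ⟨1, not_bey_second r2 r1 rfl (fun h => huw h.symm) hl0⟩
      · exact ⟨0, not_bey_of_type r1 ru hvu.1 hvu.2.1⟩
      · exact ⟨0, not_bey_of_type ru r1 hvu.1.symm hvu.symm.2.1⟩
      · exact ⟨0, not_bey_of_type r2 ru hvu.1 hvu.2.1⟩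
      · exact ⟨0, not_bey_of_type ru r2 hvu.1.symm hvu.symm.2.1⟩
    obtain ⟨u, v, huv⟩ := h5
    refine ⟨u, v, huv, hcard u v huv, hcard v u huv.symm, ?_⟩
    have hreach : ∀ z, (KG Γ H).Reachable u z → z = u ∨ z = v := by
      rintro z ⟨p⟩
      have : ∀ (a z : V) (p : (KG Γ H).Walk a z), (a = u ∨ a = v) → (z = u ∨ z = v) := by
        intro a z p
        induction p with
        | nil => exact id
        | @cons a b c hab p ih =>
          intro ha
          apply ih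
          rcases ha with rfl | rfl
          · exact Or.inr (huniq a b v hab huv)
          · exact Or.inl (huniq a b u hab huv.symm)
      exact this u z p (Or.inl rfl)
    intro x y hxy
    have hx := hreach x (hconn u x ⟨v, huv⟩ ⟨y, hxy⟩)
    rcases hx with rfl | rfl
    · exact Or.inl ⟨rfl, huniq x y v hxy huv⟩
    · exact Or.inr ⟨rfl, huniq x y u hxy huv.symm⟩
  · -- disconnected case
    exfalso
    push Not at hconn
    obtain ⟨a, c, ha, hc, hac⟩ := hconn
    obtain ⟨b, hab⟩ := ha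
    obtain ⟨d, hcd⟩ := hc
    have h6 := h4 a c ⟨b, hab⟩ ⟨d, hcd⟩ hac
    have hrab : (KG Γ H).Reachable a b := SimpleGraph.Adj.reachable (G := KG Γ H) hab
    have hrcd : (KG Γ H).Reachable c d := SimpleGraph.Adj.reachable (G := KG Γ H) hcd
    have n1 : a ≠ c := by rintro rfl; exact hac SimpleGraph.Reachable.rfl
    have n2 : a ≠ d := by rintro rfl; exact hac hrcd.symm
    have n3 : b ≠ c := by rintro rfl; exact hac hrab
    have n4 : b ≠ d := by rintro rfl; exact hac (hrab.trans hrcd.symm)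
    have r1 := ray_of_seq (Γ := Γ) (H := H) (alt_NP hab)
    have r2 := ray_of_seq (Γ := Γ) (H := H) (alt_NP hab.symm)
    have r3 := ray_of_seq (Γ := Γ) (H := H) (alt_NP hcd)
    have mem : ∀ (x y : V) (i : ℕ), alt x y i ∈ ({x, y} : Set V) := by
      intro x y i
      unfold alt
      split_ifs
      · exact Or.inl rfl
      · exact Or.inr rfl
    refine no_three hinj hS _ _ _ r1 r2 r3
      ⟨1, alt_window fun Λ hΛ => h6 Λ hΛ a b hab⟩
      ⟨1, alt_window fun Λ hΛ => h6 Λ hΛ b a hab.symm⟩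
      ⟨1, alt_window fun Λ hΛ => h6 Λ hΛ c d hcd⟩ ?_ ?_ ?_ ?_ ?_ ?_ hql
    · exact ⟨0, not_bey_of_type r1 r2 hab.1 hab.2.1⟩
    · exact ⟨0, not_bey_of_type r2 r1 hab.1.symm hab.symm.2.1⟩
    · refine ⟨0, not_bey_of_sub r1 (Λ := {c, d}) (mem c d) ?_⟩
      rintro (h | h)
      · exact n1 h
      · exact n2 h
    · refine ⟨0, not_bey_of_sub r3 (Λ := {a, b}) (mem a b) ?_⟩
      rintro (h | h)
      · exact n1 h.symm
      · exact n3 h.symm
    · refine ⟨0, not_bey_of_sub r2 (Λ := {c, d}) (mem c d) ?_⟩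
      rintro (h | h)
      · exact n3 h
      · exact n4 h
    · refine ⟨0, not_bey_of_sub r3 (Λ := {b, a}) (mem b a) ?_⟩
      rintro (h | h)
      · exact n3 h.symm
      · exact n1 h.symm

end

end Q33.GP
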