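import Mathlib
import Pool.Agent.Q33.GP.Assemble

/-!
Virtually cyclic graph products of finite groups.
-/

namespace Q33.GP

open Pool.Agent.Y33.GP

set_option linter.unusedSectionVars false

section

variable {V : Type} {Γ : SimpleGraph V} {H : V → Type} [∀ v, Group (H v)]

/-- The alternating word in two letters. -/
def alw (u v : V) (a : H u) (b : H v) (i : ℕ) : Letter H := if i % 2 = 0 then ⟨u, a⟩ else ⟨v, b⟩

theorem alw_ray {u v : V} (huv : u ≠ v) (hadj : ¬ Γ.Adj u v) {a : H u} {b : H v} (ha : a ≠ 1)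
    (hb : b ≠ 1) : IsRay Γ H (alw u v a b) := by
  constructor
  · intro i
    by_cases h : i % 2 = 0
    · have e : alw u v a b i = (⟨u, a⟩ : Letter H) := if_pos h
      rw [e]; exact ha
    · have e : alw u v a b i = (⟨v, b⟩ : Letter H) := if_neg h
      rw [e]; exact hb
  · intro i
    unfold alw
    rcases Nat.mod_two_eq_zero_or_one i with h0 | h0
    · rw [if_pos h0, if_neg (by omega)]
      exact ⟨huv, hadj⟩
    · rw [if_neg (by omega), if_pos (by omega)]
      exact ⟨huv.symm, fun h => hadj h.symm⟩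

theorem pre_alw (u v : V) (a : H u) (b : H v) (n : ℕ) :
    pre Γ H (alw u v a b) (2 * n) = (inj Γ H u a * inj Γ H v b) ^ n := by
  induction n with
  | zero => rfl
  | succ n ih =>
    have e1 : alw u v a b (2 * n) = (⟨u, a⟩ : Letter H) := by
      unfold alw; rw [if_pos (by omega)]
    have e2 : alw u v a b (2 * n + 1) = (⟨v, b⟩ : Letter H) := by
      unfold alw; rw [if_neg (by omega)]
    change pre Γ H (alw u v a b) (2 * n) * el Γ H (alw u v a b (2 * n)) *
      el Γ H (alw u v a b (2 * n + 1)) = _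
    rw [ih, e1, e2, pow_succ, mul_assoc]
    rfl

theorem head_pow {u v : V} (huv : u ≠ v) (hadj : ¬ Γ.Adj u v) {a : H u} {b : H v} (ha : a ≠ 1)
    (hb : b ≠ 1) {n : ℕ} (hn : 0 < n) :
    headv Γ H u ((inj Γ H u a * inj Γ H v b) ^ n) = a := by
  have h := bey_pre (alw_ray (Γ := Γ) huv hadj ha hb) (i := 0) (m := 2 * n) (by omega)
  unfold Bey at h
  change headv Γ H u (1⁻¹ * pre Γ H (alw u v a b) (2 * n)) = a at h
  rw [inv_one, one_mul, pre_alw] at h
  exact h

theorem head_pow_inv {u v : V} (huv : u ≠ v) (hadj : ¬ Γ.Adj u v) {a : H u} {b : H v} (ha : a ≠ 1)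
    (hb : b ≠ 1) {n : ℕ} (hn : 0 < n) :
    headv Γ H u (((inj Γ H u a * inj Γ H v b) ^ n)⁻¹) = 1 := by
  have h1 : ((inj Γ H u a * inj Γ H v b) ^ n)⁻¹ = (inj Γ H v b⁻¹ * inj Γ H u a⁻¹) ^ n := by
    rw [← inv_pow, mul_inv_rev, map_inv, map_inv]
  rw [h1]
  have h2 := head_pow (Γ := Γ) huv.symm (fun h => hadj h.symm) (inv_ne_one.mpr hb)
    (inv_ne_one.mpr ha) hn
  refine head_head Γ H huv.symm (fun h => hadj h.symm) _ ?_
  rw [h2]
  exact inv_ne_one.mpr hb

theorem inf_order {u v : V} (huv : u ≠ v) (hadj : ¬ Γ.Adj u v) {a : H u} {b : H v} (ha : a ≠ 1)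
    (hb : b ≠ 1) (n : ℤ) (hn : (inj Γ H u a * inj Γ H v b) ^ n = 1) : n = 0 := by
  by_contra hne
  rcases Int.natAbs_eq n with h | h
  · rw [h, zpow_natCast] at hn
    have := head_pow (Γ := Γ) huv hadj ha hb (n := n.natAbs) (by omega)
    rw [hn, headv_one] at this
    exact ha this.symm
  · rw [h, zpow_neg, zpow_natCast, inv_eq_one] at hn
    have := head_pow (Γ := Γ) huv hadj ha hb (n := n.natAbs) (by omega)
    rw [hn, headv_one] at this
    exact ha this.symm

theorem two_elems {K : Type} [Group K] (h : Nat.card K = 2) {a : K} (ha : a ≠ 1) (s : K) :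
    s = 1 ∨ s = a := by
  by_contra hcon
  push Not at hcon
  have : Finite K := Nat.finite_of_card_ne_zero (by omega)
  have h1 : ({1, a, s} : Set K).ncard ≤ Nat.card K := by
    rw [← Set.ncard_univ]
    exact Set.ncard_le_ncard (Set.subset_univ _) (Set.toFinite _)
  have h2 : ({1, a, s} : Set K).ncard = 3 := by
    rw [Set.ncard_eq_three]
    exact ⟨1, a, s, ha.symm, hcon.1.symm, hcon.2.symm, rfl⟩
  omega

theorem two_inv {K : Type} [Group K] (h : Nat.card K = 2) {a : K} (ha : a ≠ 1) : a⁻¹ = a := by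
  rcases two_elems h ha a⁻¹ with h1 | h1
  · exact absurd (inv_eq_one.mp h1) ha
  · exact h1

theorem sub_univ : sub Γ H Set.univ = ⊤ := by
  rw [eq_top_iff]
  rintro x -
  refine ind_left Γ H (P := fun x => x ∈ sub Γ H Set.univ) x (Subgroup.one_mem _) ?_
  intro v a x hx
  exact Subgroup.mul_mem _ (inj_mem_sub Γ H (Set.mem_univ v) a) hx

variable [Finite V] [∀ v, Finite (H v)]

/-- A unique noncommuting pair of groups of order two gives a virtually cyclic group. -/
theorem vc_of_unique {u v : V} (huv : NP Γ H u v) (hu : Nat.card (H u) = 2)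
    (hv : Nat.card (H v) = 2)
    (huniq : ∀ x y, NP Γ H x y → (x = u ∧ y = v) ∨ (x = v ∧ y = u)) :
    ∃ c : GProd Γ H, (Subgroup.zpowers c).index ≠ 0 ∧ ∀ n : ℤ, c ^ n = 1 → n = 0 := by
  set a := al H u with ha0
  set b := al H v with hb0
  have ha : a ≠ 1 := al_ne H huv.2.2.1
  have hb : b ≠ 1 := al_ne H huv.2.2.2
  have hai : (inj Γ H u a)⁻¹ = inj Γ H u a := by rw [← map_inv, two_inv hu ha]
  have hbi : (inj Γ H v b)⁻¹ = inj Γ H v b := by rw [← map_inv, two_inv hv hb]
  have haa : inj Γ H u a * inj Γ H u a = 1 := by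
    have := mul_inv_cancel (inj Γ H u a)
    rwa [hai] at this
  have hbb : inj Γ H v b * inj Γ H v b = 1 := by
    have := mul_inv_cancel (inj Γ H v b)
    rwa [hbi] at this
  set c := inj Γ H u a * inj Γ H v b with hc
  have hci : c⁻¹ = inj Γ H v b * inj Γ H u a := by rw [hc, mul_inv_rev, hai, hbi]
  refine ⟨c, ?_, fun n hn => inf_order huv.1 huv.2.1 ha hb n hn⟩
  have hconj : ∀ (x : V) (s : H x), inj Γ H x s * c * (inj Γ H x s)⁻¹ = c ∨
      inj Γ H x s * c * (inj Γ H x s)⁻¹ = c⁻¹ := by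
    intro x s
    by_cases hxu : x = u
    · subst hxu
      rcases two_elems hu ha s with rfl | rfl
      · left; rw [map_one, inv_one, mul_one, one_mul]
      · right
        rw [hci, hai, hc, ← mul_assoc, haa, one_mul]
    · by_cases hxv : x = v
      · subst hxv
        rcases two_elems hv hb s with rfl | rfl
        · left; rw [map_one, inv_one, mul_one, one_mul]
        · right
          rw [hci, hbi, hc, mul_assoc, mul_assoc, hbb, mul_one]
      · left
        have h1 : ¬ NP Γ H x u := by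
          intro h
          rcases huniq _ _ h with h | h
          · exact hxu h.1
          · exact hxv h.1
        have h2 : ¬ NP Γ H x v := by
          intro h
          rcases huniq _ _ h with h | h
          · exact hxu h.1
          · exact hxv h.1
        have e1 := comm_of_not_NP Γ H hxu h1 s a
        have e2 := comm_of_not_NP Γ H hxv h2 s b
        rw [hc, ← mul_assoc, e1, mul_assoc (inj Γ H u a), e2, ← mul_assoc,
          mul_inv_cancel_right]
  have hnorm : (Subgroup.zpowers c).Normal := by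
    constructor
    intro n hn g
    revert n
    refine ind_left Γ H (P := fun g => ∀ n, n ∈ Subgroup.zpowers c →
      g * n * g⁻¹ ∈ Subgroup.zpowers c) g ?_ ?_
    · intro n hn
      rw [inv_one, mul_one, one_mul]; exact hn
    · intro x s g ih n hn
      have h1 := ih n hn
      obtain ⟨k, hk⟩ := h1
      have hk' : c ^ k = g * n * g⁻¹ := hk
      have e : inj Γ H x s * g * n * (inj Γ H x s * g)⁻¹ =
          (inj Γ H x s * c * (inj Γ H x s)⁻¹) ^ k := by
        rw [conj_zpow, hk', mul_inv_rev]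
        simp only [mul_assoc]
      rw [e]
      rcases hconj x s with h | h
      · rw [h]; exact ⟨k, rfl⟩
      · rw [h]; exact ⟨-k, by simp⟩
  have hcm : QuotientGroup.mk' (Subgroup.zpowers c) c = 1 :=
    (QuotientGroup.eq_one_iff c).mpr (Subgroup.mem_zpowers c)
  have hfin := finite_of_comm Γ H Set.univ (QuotientGroup.mk' (Subgroup.zpowers c)) (by
    intro x _ y _ hxy s s'
    by_cases h : NP Γ H x y
    · have key : ∀ (s : H u) (s' : H v),
          QuotientGroup.mk' (Subgroup.zpowers c) (inj Γ H u s) *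
            QuotientGroup.mk' (Subgroup.zpowers c) (inj Γ H v s') =
          QuotientGroup.mk' (Subgroup.zpowers c) (inj Γ H v s') *
            QuotientGroup.mk' (Subgroup.zpowers c) (inj Γ H u s) := by
        intro s s'
        rcases two_elems hu ha s with rfl | rfl
        · simp
        · rcases two_elems hv hb s' with rfl | rfl
          · simp
          · rw [← map_mul, ← map_mul, ← hci, map_inv, ← hc, hcm, inv_one]
      rcases huniq x y h with ⟨rfl, rfl⟩ | ⟨rfl, rfl⟩
      · exact key s s'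
      · exact (key s' s).symm
    · rw [← map_mul, ← map_mul, comm_of_not_NP Γ H hxy h])
  rw [sub_univ, ← MonoidHom.range_eq_map] at hfin
  have hsurj : (QuotientGroup.mk' (Subgroup.zpowers c)).range = ⊤ :=
    MonoidHom.range_eq_top.mpr (QuotientGroup.mk'_surjective _)
  rw [hsurj] at hfin
  have hfq : Finite (GProd Γ H ⧸ Subgroup.zpowers c) := by
    rw [← Set.finite_univ_iff]
    exact hfin
  exact Subgroup.index_ne_zero_of_finite

theorem common_power {G : Type} [Group G] (h : IsVirtuallyCyclic G) {g k : G}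
    (hg : ∀ n : ℤ, g ^ n = 1 → n = 0) (hk : ∀ n : ℤ, k ^ n = 1 → n = 0) :
    ∃ m n : ℤ, m ≠ 0 ∧ n ≠ 0 ∧ g ^ m = k ^ n := by
  obtain ⟨c, hc⟩ := h
  obtain ⟨p, hp0, _, p', hp⟩ := Subgroup.exists_pow_mem_of_index_ne_zero hc g
  obtain ⟨q, hq0, _, q', hq⟩ := Subgroup.exists_pow_mem_of_index_ne_zero hc k
  have hp1 : c ^ p' = g ^ p := hp
  have hq1 : c ^ q' = k ^ q := hq
  have hp' : p' ≠ 0 := by
    rintro rfl
    rw [zpow_zero] at hp1
    have := hg p (by rw [zpow_natCast, ← hp1])
    omega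
  have hq' : q' ≠ 0 := by
    rintro rfl
    rw [zpow_zero] at hq1
    have := hk q (by rw [zpow_natCast, ← hq1])
    omega
  refine ⟨p * q', q * p', mul_ne_zero (by omega) hq', mul_ne_zero (by omega) hp', ?_⟩
  rw [zpow_mul, zpow_natCast, ← hp1, zpow_mul, zpow_natCast, ← hq1, ← zpow_mul, ← zpow_mul,
    mul_comm]

/-- An infinite virtually cyclic graph product has a unique noncommuting pair, of groups of
order two. -/
theorem unique_of_vc (hinf : Infinite (GProd Γ H)) (hvc : IsVirtuallyCyclic (GProd Γ H)) :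
    ∃ u v, NP Γ H u v ∧ Nat.card (H u) = 2 ∧ Nat.card (H v) = 2 ∧
      ∀ x y, NP Γ H x y → (x = u ∧ y = v) ∨ (x = v ∧ y = u) := by
  obtain ⟨u, v, huv⟩ : ∃ u v, NP Γ H u v := by
    by_contra hcon
    push Not at hcon
    have h1 := finite_sub Γ H Set.univ (fun x _ y _ => hcon x y)
    rw [sub_univ] at h1
    have : Finite (GProd Γ H) := by
      rw [← Set.finite_univ_iff]
      exact h1
    exact not_finite (GProd Γ H)
  have hcard : ∀ u v, NP Γ H u v → Nat.card (H u) = 2 := by
    intro u v huv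
    by_contra hne
    have hnt : Nontrivial (H u) := huv.2.2.1
    have h6 : 2 < Nat.card (H u) := by
      have := Finite.one_lt_card_iff_nontrivial.mpr hnt
      omega
    obtain ⟨a', ha1, ha2⟩ : ∃ a' : H u, a' ≠ 1 ∧ a' ≠ al H u := by
      by_contra hcon
      push Not at hcon
      have h7 : (Set.univ : Set (H u)) ⊆ {1, al H u} := by
        intro z _
        by_cases hz : z = 1
        · exact Or.inl hz
        · exact Or.inr (hcon z hz)
      have h8 := Set.ncard_le_ncard h7 (Set.toFinite _)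
      rw [Set.ncard_univ] at h8
      have h9 := Set.ncard_insert_le (1 : H u) {al H u}
      rw [Set.ncard_singleton] at h9
      omega
    have ha := al_ne H hnt
    have hb := al_ne H huv.2.2.2
    obtain ⟨m, n, hm, hn, hmn⟩ := common_power hvc
      (inf_order (Γ := Γ) huv.1 huv.2.1 ha hb) (inf_order (Γ := Γ) huv.1 huv.2.1 ha1 hb)
    have pos := fun (k : ℤ) (hk : k ≠ 0) => (show 0 < k.natAbs by omega)
    rcases Int.natAbs_eq m with h | h <;> rcases Int.natAbs_eq n with h' | h' <;>
      rw [h, h'] at hmn <;> simp only [zpow_neg, zpow_natCast] at hmn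
    · have e1 := head_pow (Γ := Γ) huv.1 huv.2.1 ha hb (pos m hm)
      rw [hmn, head_pow (Γ := Γ) huv.1 huv.2.1 ha1 hb (pos n hn)] at e1
      exact ha2 e1
    · have e1 := head_pow (Γ := Γ) huv.1 huv.2.1 ha hb (pos m hm)
      rw [hmn, head_pow_inv (Γ := Γ) huv.1 huv.2.1 ha1 hb (pos n hn)] at e1
      exact ha e1.symm
    · have e1 := head_pow_inv (Γ := Γ) huv.1 huv.2.1 ha hb (pos m hm)
      rw [hmn, head_pow (Γ := Γ) huv.1 huv.2.1 ha1 hb (pos n hn)] at e1
      exact ha1 e1
    · rw [inv_inj] at hmn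
      have e1 := head_pow (Γ := Γ) huv.1 huv.2.1 ha hb (pos m hm)
      rw [hmn, head_pow (Γ := Γ) huv.1 huv.2.1 ha1 hb (pos n hn)] at e1
      exact ha2 e1
  refine ⟨u, v, huv, hcard u v huv, hcard v u huv.symm, ?_⟩
  -- uniqueness
  have key : ∀ x y, NP Γ H x y → (x ∈ ({u, v} : Set V) ∧ y ∈ ({u, v} : Set V)) := by
    intro x y hxy
    by_contra hcon
    have ha := al_ne H huv.2.2.1
    have hb := al_ne H huv.2.2.2
    have hx := al_ne H hxy.2.2.1
    have hy := al_ne H hxy.2.2.2
    obtain ⟨m, n, hm, hn, hmn⟩ := common_power hvc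
      (inf_order (Γ := Γ) huv.1 huv.2.1 ha hb) (inf_order (Γ := Γ) hxy.1 hxy.2.1 hx hy)
    have h1 := congrArg (kap Γ H {u, v}) hmn
    rw [map_zpow, map_zpow, map_mul, map_mul,
      kap_mem Γ H (Λ := {u, v}) (Or.inl rfl), kap_mem Γ H (Λ := {u, v}) (Or.inr rfl)] at h1
    obtain ⟨N, hN0, hN⟩ : ∃ N : ℕ, 0 < N ∧ (kap Γ H {u, v} (inj Γ H x (al H x)) *
        kap Γ H {u, v} (inj Γ H y (al H y))) ^ N = 1 := by
      by_cases hxm : x ∈ ({u, v} : Set V)
      · have hym : y ∉ ({u, v} : Set V) := fun h => hcon ⟨hxm, h⟩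
        refine ⟨Nat.card (H x), Nat.card_pos, ?_⟩
        rw [kap_not Γ H hym, mul_one, kap_mem Γ H hxm, ← map_pow, pow_card_eq_one', map_one]
      · refine ⟨Nat.card (H y), Nat.card_pos, ?_⟩
        rw [kap_not Γ H hxm, one_mul, ← map_pow, ← map_pow, pow_card_eq_one', map_one, map_one]
    have h2 : (inj Γ H u (al H u) * inj Γ H v (al H v)) ^ (m * N) = 1 := by
      rw [zpow_mul, h1, ← zpow_mul, mul_comm, zpow_mul, zpow_natCast, hN, one_zpow]
    have h3 := inf_order (Γ := Γ) huv.1 huv.2.1 ha hb _ h2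
    rcases mul_eq_zero.mp h3 with h4 | h4
    · exact hm h4
    · omega
  intro x y hxy
  obtain ⟨h1 | h1, h2 | h2⟩ := key x y hxy
  · exact absurd (h1.trans h2.symm) hxy.1
  · exact Or.inl ⟨h1, h2⟩
  · exact Or.inr ⟨h1, h2⟩
  · exact absurd (h1.trans h2.symm) hxy.1

end

end Q33.GP
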